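import Mathlib
import Pool.Agent.H759R2.Kad.Props4
import Pool.Agent.H294R2.Kad2.Dix2

/-! Task S4 (helper992): the key inequality. -/

open scoped ComplexOrder InnerProductSpace ComplexConjugate
open Finset

noncomputable section

namespace H759R2.Kad

universe u v

open H294R2.Kad2

namespace S04

section

variable {A : Type u} [CStarAlgebra A] {ι : Type} [Fintype ι] [DecidableEq ι]

/-- Diagonal matrices. -/
def dg (a : ι → A) : CStarMatrix ι ι A := CStarMatrix.ofMatrix (Matrix.diagonal a)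

theorem dg_apply (a : ι → A) (i j : ι) : dg a i j = if i = j then a i else 0 := by
  change Matrix.diagonal a i j = _
  rw [Matrix.diagonal_apply]

theorem dg_mul [PartialOrder A] [StarOrderedRing A] (a b : ι → A) :
    dg a * dg b = dg (fun i => a i * b i) := by
  ext i j
  rw [CStarMatrix.mul_apply, Finset.sum_eq_single i]
  · rw [dg_apply, dg_apply, dg_apply, if_pos rfl]
    split_ifs <;> simp
  · intro k _ hk
    rw [dg_apply, if_neg (Ne.symm hk), zero_mul]
  · simp

theorem dg_star (a : ι → A) : star (dg a) = dg (fun i => star (a i)) := by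
  ext i j
  rw [CStarMatrix.star_apply, dg_apply, dg_apply]
  by_cases h : i = j
  · subst h
    simp
  · rw [if_neg (Ne.symm h), if_neg h, star_zero]

theorem dg_one [PartialOrder A] [StarOrderedRing A] : dg (fun _ : ι => (1 : A)) = 1 := by
  ext i j
  rw [dg_apply, CStarMatrix.one_apply]

theorem dg_unitary [PartialOrder A] [StarOrderedRing A] {a : ι → A}
    (ha : ∀ i, a i ∈ unitary A) : dg a ∈ unitary (CStarMatrix ι ι A) := by
  rw [Unitary.mem_iff]
  constructor
  · rw [dg_star, dg_mul, ← dg_one]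
    congr 1
    funext i
    exact (Unitary.mem_iff.mp (ha i)).1
  · rw [dg_star, dg_mul, ← dg_one]
    congr 1
    funext i
    exact (Unitary.mem_iff.mp (ha i)).2

variable {H : Type v} [NormedAddCommGroup H] [InnerProductSpace ℂ H]

theorem amp_dg (w : A →ₗ[ℂ] (H →L[ℂ] H)) (a : ι → A) (x : HH ι H) (i : ι) :
    amp w ι (dg a) x i = w (a i) (x i) := by
  rw [amp_apply, Finset.sum_eq_single i]
  · rw [dg_apply, if_pos rfl]
  · intro k _ hk
    rw [dg_apply, if_neg (Ne.symm hk), map_zero]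
    rfl
  · simp

theorem amp_tens (w : A →ₗ[ℂ] (H →L[ℂ] H)) (hw : w 1 = 1) (s : Matrix ι ι ℂ) (x : HH ι H)
    (i : ι) : amp w ι (tens s 1) x i = ∑ j, s i j • x j := by
  rw [amp_apply]
  refine Finset.sum_congr rfl fun j _ => ?_
  have : tens s (1 : A) i j = s i j • (1 : A) := rfl
  rw [this, map_smul, hw]
  rfl

end

end S04

open S04 in
theorem prove4_key (h1 : S_feed.{u, v}) (h2 : S_free.{v}) (h3 : K_level.{u, v}) : S_key.{u, v} := by
  intro A _ _ _ H _ _ _ w hw C hC hlvl I J _ _ _ _ g ξ μ κ hsum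
  classical
  have hU : IsHom (amp w (I ⊕ J)) := amp_isHom hw
  have hUb : ∀ b, ‖amp w (I ⊕ J) b‖ ≤ C * ‖b‖ :=
    h3 A H w (Fintype.card (I ⊕ J)) C hC (hlvl _) (I ⊕ J) le_rfl
  obtain ⟨W, hW, hWα⟩ := h2 H (I ⊕ J) (Sum.elim (fun i => w (g i : A) (ξ i)) κ) (Sum.elim ξ μ) (by
    intro x
    rw [Fintype.sum_sum_type, Fintype.sum_sum_type]
    simpa using hsum x)
  set D : CStarMatrix (I ⊕ J) (I ⊕ J) A := dg (Sum.elim (fun i => (g i : A)) fun _ => 1) with hD
  set T : CStarMatrix (I ⊕ J) (I ⊕ J) A := tens W 1 with hT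
  set e : CStarMatrix (I ⊕ J) (I ⊕ J) A := dg (Sum.elim (fun _ => 1) fun _ => 0) with he
  have hDu : D ∈ unitary (CStarMatrix (I ⊕ J) (I ⊕ J) A) := dg_unitary (by
    rintro (i | j)
    · exact (g i).2
    · exact one_mem _)
  have hTu : T ∈ unitary (CStarMatrix (I ⊕ J) (I ⊕ J) A) := Block.tens_unitary hW (one_mem _)
  have hVu : star D * T ∈ unitary (CStarMatrix (I ⊕ J) (I ⊕ J) A) :=
    mul_mem (Unitary.star_mem hDu) hTu
  have hes : IsSelfAdjoint e := by
    rw [IsSelfAdjoint, he, dg_star]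
    congr 1
    funext i
    rcases i with i | j <;> simp
  have hee : e * e = e := by
    rw [he, dg_mul]
    congr 1
    funext i
    rcases i with i | j <;> simp
  set ξ' : HH (I ⊕ J) H := WithLp.toLp 2 (Sum.elim ξ fun _ => 0) with hξ'
  set κ' : HH (I ⊕ J) H := WithLp.toLp 2 (Sum.elim (fun _ => 0) κ) with hκ'
  set μ' : HH (I ⊕ J) H := WithLp.toLp 2 (Sum.elim (fun _ => 0) μ) with hμ'
  have k1 : amp w (I ⊕ J) e ξ' = ξ' := by
    ext i
    rw [amp_dg]
    rcases i with i | j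
    · simp [hξ', hw.one]
    · simp [hξ']
  have k2 : amp w (I ⊕ J) e κ' = 0 := by
    ext i
    rw [amp_dg]
    rcases i with i | j
    · simp [hκ']
    · simp [hκ']
  have k3 : amp w (I ⊕ J) e μ' = 0 := by
    ext i
    rw [amp_dg]
    rcases i with i | j
    · simp [hμ']
    · simp [hμ']
  have k4 : amp w (I ⊕ J) T (ξ' + μ') = amp w (I ⊕ J) D (ξ' + κ') := by
    ext i
    rw [amp_tens w hw.one, amp_dg]
    have h4 : ∀ j, (ξ' + μ') j = Sum.elim ξ μ j := by
      rintro (j | j) <;> simp [hξ', hμ']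
    simp only [h4]
    rw [← hWα i]
    rcases i with i | j
    · simp [hξ', hκ']
    · simp [hξ', hκ', hw.one]
  have k5 : amp w (I ⊕ J) (star D * T) (ξ' + μ') = ξ' + κ' := by
    rw [hU.mul, ContinuousLinearMap.mul_apply, k4, ← ContinuousLinearMap.mul_apply, ← hU.mul,
      (Unitary.mem_iff.mp hDu).1, hU.one]
    rfl
  have k6 := h1 (CStarMatrix (I ⊕ J) (I ⊕ J) A) (HH (I ⊕ J) H) (amp w (I ⊕ J)) hU C hC hUb
    (star D * T) e hVu hes hee ξ' κ' μ' k1 k2 k3 k5
  have k7 : ‖κ'‖ ^ 2 ≤ (C * ‖μ'‖) ^ 2 := pow_le_pow_left₀ (norm_nonneg _) k6 2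
  rw [mul_pow, PiLp.norm_sq_eq_of_L2, PiLp.norm_sq_eq_of_L2, Fintype.sum_sum_type,
    Fintype.sum_sum_type] at k7
  simpa [hκ', hμ'] using k7

end H759R2.Kad
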